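import Mathlib

/-!
# Doubly irreducible elements and critical pairs in irreducible posets

We prove that in a finite irreducible poset every doubly irreducible element is the first
element of some critical pair and also the second element of some critical pair.
-/

namespace Pool.Agent.Results.MP_ba261c_co.DoublyIrreducible

/-- `r` is a linear extension of the order of `α`: a total order containing it. -/
structure IsLinExt {α : Type*} [PartialOrder α] (r : α → α → Prop) : Prop where
  refl : ∀ a, r a a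
  trans : ∀ a b c, r a b → r b c → r a c
  antisymm : ∀ a b, r a b → r b a → a = b
  total : ∀ a b, r a b ∨ r b a
  ext : ∀ a b, a ≤ b → r a b

/-- The order of `α` is the intersection of `d` linear extensions. -/
def Realizable (α : Type*) [PartialOrder α] (d : ℕ) : Prop :=
  ∃ L : Fin d → α → α → Prop, (∀ i, IsLinExt (L i)) ∧ ∀ a b : α, a ≤ b ↔ ∀ i, L i a b

/-- The Dushnik and Miller dimension: the least number `d` of linear extensions whose
intersection is the order.  The parameter `m` (used with `m = 0` or `m = 1`) is a lower bound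
for the number of linear extensions used; it only selects the convention for posets with at
most one element (`m = 0`: their dimension is `0`; `m = 1`: their dimension is `1`). -/
noncomputable def pdim (m : ℕ) (α : Type*) [PartialOrder α] : ℕ∞ :=
  ⨅ (d : ℕ) (_ : m ≤ d ∧ Realizable α d), (d : ℕ∞)

/-- Deleting any single element lowers the dimension. -/
def Irreducible (m : ℕ) (α : Type*) [PartialOrder α] : Prop :=
  ∀ x : α, pdim m {y : α // y ≠ x} < pdim m α

/-- `x` is join-irreducible: `x = ⋁ S` implies `x ∈ S` (with `S = ∅` allowed). -/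
def JoinIrr {α : Type*} [PartialOrder α] (x : α) : Prop :=
  ∀ S : Set α, IsLUB S x → x ∈ S

/-- `x` is meet-irreducible: `x = ⋀ S` implies `x ∈ S` (with `S = ∅` allowed). -/
def MeetIrr {α : Type*} [PartialOrder α] (x : α) : Prop :=
  ∀ S : Set α, IsGLB S x → x ∈ S

/-- `⟨a, b⟩` is a critical pair: `a` and `b` are incomparable, every element strictly above
`a` is strictly above `b`, and every element strictly below `b` is strictly below `a`. -/
def Critical {α : Type*} [PartialOrder α] (a b : α) : Prop :=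
  ¬ a ≤ b ∧ ¬ b ≤ a ∧ (∀ z, a < z → b < z) ∧ (∀ z, z < b → z < a)

/-! ### Relational version of the twin argument -/

/-- relational linear order containing `le` -/
structure LinRel {β : Type*} (le r : β → β → Prop) : Prop where
  refl : ∀ a, r a a
  trans : ∀ a b c, r a b → r b c → r a c
  antisymm : ∀ a b, r a b → r b a → a = b
  total : ∀ a b, r a b ∨ r b a
  ext : ∀ a b, le a b → r a b

def Rz {β : Type*} (le : β → β → Prop) (d : ℕ) : Prop :=
  ∃ L : Fin d → β → β → Prop, (∀ i, LinRel le (L i)) ∧ ∀ a b : β, le a b ↔ ∀ i, L i a b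

theorem rz_flip {β : Type*} {le : β → β → Prop} {d : ℕ} (h : Rz le d) :
    Rz (fun a b => le b a) d := by
  obtain ⟨L, h1, h2⟩ := h
  refine ⟨fun i a b => L i b a, fun i => ?_, fun a b => h2 b a⟩
  exact ⟨fun a => (h1 i).refl a, fun a b c hab hbc => (h1 i).trans c b a hbc hab,
    fun a b hab hba => (h1 i).antisymm a b hba hab, fun a b => (h1 i).total b a,
    fun a b hab => (h1 i).ext b a hab⟩

theorem realizable_iff (α : Type*) [PartialOrder α] (d : ℕ) :
    Realizable α d ↔ Rz (fun a b : α => a ≤ b) d := by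
  constructor
  · rintro ⟨L, h1, h2⟩
    exact ⟨L, fun i => ⟨(h1 i).refl, (h1 i).trans, (h1 i).antisymm, (h1 i).total, (h1 i).ext⟩, h2⟩
  · rintro ⟨L, h1, h2⟩
    exact ⟨L, fun i => ⟨(h1 i).refl, (h1 i).trans, (h1 i).antisymm, (h1 i).total, (h1 i).ext⟩, h2⟩

open Classical in
/-- replace `x` by `c` -/
noncomputable def proj {β : Type*} {x c : β} (hc : c ≠ x) (z : β) : {y : β // y ≠ x} :=
  if h : z = x then ⟨c, hc⟩ else ⟨z, h⟩

theorem proj_x {β : Type*} {x c : β} (hc : c ≠ x) : proj hc x = ⟨c, hc⟩ := by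
  simp [proj]

theorem proj_ne {β : Type*} {x c : β} (hc : c ≠ x) {z : β} (h : z ≠ x) :
    proj hc z = ⟨z, h⟩ := by
  simp [proj, h]

theorem proj_eq {β : Type*} {x c : β} (hc : c ≠ x) {a b : β} (h : proj hc a = proj hc b) :
    a = b ∨ (a = c ∧ b = x) ∨ (a = x ∧ b = c) := by
  by_cases ha : a = x
  · by_cases hb : b = x
    · left; rw [ha, hb]
    · right; right
      refine ⟨ha, ?_⟩
      rw [ha, proj_x, proj_ne hc hb] at h
      exact (congrArg Subtype.val h).symm
  · by_cases hb : b = x
    · right; left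
      refine ⟨?_, hb⟩
      rw [hb, proj_x, proj_ne hc ha] at h
      exact (congrArg Subtype.val h)
    · left
      rw [proj_ne hc ha, proj_ne hc hb] at h
      exact (congrArg Subtype.val h)

/-- If `c` is the greatest element strictly below `x` and everything strictly above `c` is
above `x`, a realizer of the poset without `x` yields one of the whole poset. -/
theorem twin {β : Type*} {le : β → β → Prop} (hr : ∀ a, le a a)
    (ht : ∀ a b c, le a b → le b c → le a c) (ha : ∀ a b, le a b → le b a → a = b)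
    {x c : β} (hc : c ≠ x) (hcx : le c x) (hlow : ∀ w, le w x → w ≠ x → le w c)
    (hup : ∀ z, le c z → z ≠ c → le x z) {d : ℕ} (hd : 1 ≤ d)
    (h : Rz (fun a b : {y : β // y ≠ x} => le a.1 b.1) d) : Rz le d := by
  obtain ⟨L, h1, h2⟩ := h
  have hext : ∀ a b, le a b → a = b ∨ (a = c ∧ b = x) ∨
      (proj hc a ≠ proj hc b ∧ le (proj hc a).1 (proj hc b).1) := by
    intro a b hab
    by_cases hp : proj hc a = proj hc b
    · rcases proj_eq hc hp with h | h | h
      · exact Or.inl h
      · exact Or.inr (Or.inl h)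
      · exfalso
        rw [h.1, h.2] at hab
        exact hc (ha _ _ hcx hab)
    · right; right
      refine ⟨hp, ?_⟩
      by_cases hax : a = x
      · by_cases hbx : b = x
        · exact absurd (by rw [hax, hbx]) hp
        · rw [hax, proj_x, proj_ne hc hbx]
          rw [hax] at hab
          exact ht _ _ _ hcx hab
      · by_cases hbx : b = x
        · rw [hbx, proj_x, proj_ne hc hax]
          rw [hbx] at hab
          exact hlow a hab hax
        · rw [proj_ne hc hax, proj_ne hc hbx]
          exact hab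
  refine ⟨fun i a b => a = b ∨ (a = c ∧ b = x) ∨
      (proj hc a ≠ proj hc b ∧ L i (proj hc a) (proj hc b)), fun i => ?_, fun a b => ?_⟩
  · refine ⟨fun a => Or.inl rfl, ?_, ?_, ?_, ?_⟩
    · rintro a b e (rfl | ⟨rfl, rfl⟩ | ⟨hab, hab'⟩) hbe
      · exact hbe
      · rcases hbe with rfl | ⟨h, rfl⟩ | ⟨hbe, hbe'⟩
        · exact Or.inr (Or.inl ⟨rfl, rfl⟩)
        · exact absurd h.symm hc
        · right; right
          have e1 : proj hc a = proj hc b := by rw [proj_x, proj_ne hc hc]
          rw [e1]
          exact ⟨hbe, hbe'⟩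
      · rcases hbe with rfl | ⟨rfl, rfl⟩ | ⟨hbe, hbe'⟩
        · exact Or.inr (Or.inr ⟨hab, hab'⟩)
        · right; right
          have e1 : proj hc b = proj hc e := by rw [proj_x, proj_ne hc hc]
          rw [← e1]
          exact ⟨hab, hab'⟩
        · right; right
          refine ⟨fun hae => ?_, (h1 i).trans _ _ _ hab' hbe'⟩
          rw [← hae] at hbe'
          exact hab ((h1 i).antisymm _ _ hab' hbe')
    · rintro a b (rfl | ⟨rfl, rfl⟩ | ⟨hab, hab'⟩) hba
      · rfl
      · rcases hba with h | ⟨h, -⟩ | ⟨h, -⟩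
        · exact h.symm
        · exact h.symm
        · exact absurd (by rw [proj_x, proj_ne hc hc]) h
      · rcases hba with h | ⟨rfl, rfl⟩ | ⟨h, h'⟩
        · exact h.symm
        · exact absurd (by rw [proj_x, proj_ne hc hc]) hab
        · exact absurd ((h1 i).antisymm _ _ hab' h') hab
    · intro a b
      by_cases hp : proj hc a = proj hc b
      · rcases proj_eq hc hp with h | h | h
        · exact Or.inl (Or.inl h)
        · exact Or.inl (Or.inr (Or.inl h))
        · exact Or.inr (Or.inr (Or.inl ⟨h.2, h.1⟩))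
      · rcases (h1 i).total (proj hc a) (proj hc b) with h | h
        · exact Or.inl (Or.inr (Or.inr ⟨hp, h⟩))
        · exact Or.inr (Or.inr (Or.inr ⟨fun e => hp e.symm, h⟩))
    · intro a b hab
      rcases hext a b hab with h | h | h
      · exact Or.inl h
      · exact Or.inr (Or.inl h)
      · exact Or.inr (Or.inr ⟨h.1, (h1 i).ext _ _ h.2⟩)
  · constructor
    · intro hab i
      rcases hext a b hab with h | h | h
      · exact Or.inl h
      · exact Or.inr (Or.inl h)
      · exact Or.inr (Or.inr ⟨h.1, (h1 i).ext _ _ h.2⟩)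
    · intro hall
      by_cases e1 : a = b
      · rw [e1]; exact hr b
      by_cases e2 : a = c ∧ b = x
      · rw [e2.1, e2.2]; exact hcx
      have h3 : ∀ i, proj hc a ≠ proj hc b ∧ L i (proj hc a) (proj hc b) := by
        intro i
        rcases hall i with h | h | h
        · exact absurd h e1
        · exact absurd h e2
        · exact h
      have hne := (h3 ⟨0, hd⟩).1
      have hle : le (proj hc a).1 (proj hc b).1 := (h2 _ _).2 fun i => (h3 i).2
      by_cases hax : a = x
      · by_cases hbx : b = x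
        · exact absurd (hax.trans hbx.symm) e1
        · rw [hax, proj_x, proj_ne hc hbx] at hle hne
          rw [hax]
          exact hup b hle fun h => hne (Subtype.ext h.symm)
      · by_cases hbx : b = x
        · rw [hbx, proj_x, proj_ne hc hax] at hle
          rw [hbx]
          exact ht _ _ _ hle hcx
        · rw [proj_ne hc hax, proj_ne hc hbx] at hle
          exact hle

/-- relational critical pair with second element `x` -/
theorem second_rel {β : Type*} [Finite β] {le : β → β → Prop} (hr : ∀ a, le a a)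
    (ht : ∀ a b c, le a b → le b c → le a c) (ha : ∀ a b, le a b → le b a → a = b)
    {x : β} (hj : ∃ y, (∀ w, le w x → w ≠ x → le w y) ∧ ¬ le x y)
    {d : ℕ} (hd : 1 ≤ d)
    (h : Rz (fun a b : {y : β // y ≠ x} => le a.1 b.1) d) (hn : ¬ Rz le d) :
    ∃ a, ¬ le a x ∧ ¬ le x a ∧ (∀ z, le a z → z ≠ a → le x z ∧ z ≠ x) ∧
      (∀ z, le z x → z ≠ x → le z a ∧ z ≠ a) := by
  classical
  by_cases hcase : ∃ y, (∀ w, le w x → w ≠ x → le w y) ∧ ¬ le x y ∧ ¬ le y x
  · obtain ⟨y, hy1, hy2, hy3⟩ := hcase
    -- a maximal element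
    let po : PartialOrder β :=
      { le := le
        le_refl := hr
        le_trans := ht
        le_antisymm := ha }
    obtain ⟨a, hya, hmax⟩ := (Set.toFinite {z : β | (∀ w, le w x → w ≠ x → le w z) ∧
        ¬ le x z ∧ le y z}).exists_le_maximal (a := y) ⟨hy1, hy2, hr y⟩
    obtain ⟨⟨ha1, ha2, ha3⟩, hm⟩ := hmax
    have hax : ¬ le a x := fun h => hy3 (ht _ _ _ ha3 h)
    refine ⟨a, hax, ha2, fun z haz hza => ?_, fun z hzx hne => ⟨ha1 z hzx hne, ?_⟩⟩
    · by_cases hxz : le x z
      · refine ⟨hxz, fun hzx => hax ?_⟩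
        rw [← hzx]; exact haz
      · exfalso
        apply hza
        exact ha _ _ (hm ⟨fun w hw hwx => ht _ _ _ (ha1 w hw hwx) haz, hxz,
          ht _ _ _ ha3 haz⟩ haz) haz
    · rintro rfl
      exact hax hzx
  · exfalso
    push Not at hcase
    obtain ⟨c, hc1, hc2⟩ := hj
    have hcx : le c x := hcase c hc1 hc2
    have hc : c ≠ x := by
      rintro rfl
      exact hc2 (hr c)
    refine hn (twin hr ht ha hc hcx hc1 (fun z hz hzc => ?_) hd h)
    by_contra hxz
    have hz1 : ∀ w, le w x → w ≠ x → le w z := fun w hw hwx => ht _ _ _ (hc1 w hw hwx) hz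
    have hzx : le z x := hcase z hz1 hxz
    have hzx' : z ≠ x := by
      rintro rfl
      exact hxz (hr z)
    exact hzc (ha _ _ (hc1 z hzx hzx') hz)

/-- extraction of a realizer from irreducibility -/
theorem exists_realizer {m : ℕ} {α : Type*} [PartialOrder α] {x : α}
    (h : pdim m {y : α // y ≠ x} < pdim m α) :
    ∃ d, Realizable {y : α // y ≠ x} d ∧ ¬ Realizable α d := by
  unfold pdim at h
  rw [iInf_lt_iff] at h
  obtain ⟨d, hd⟩ := h
  rw [iInf_lt_iff] at hd
  obtain ⟨⟨hm, hd1⟩, hd2⟩ := hd
  refine ⟨d, hd1, fun hR => ?_⟩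
  refine absurd hd2 (not_lt.2 ?_)
  exact iInf₂_le d ⟨hm, hR⟩

/-- In a finite irreducible poset, every doubly irreducible element is the first element of
some critical pair and the second element of some critical pair. -/
theorem result (m : ℕ) (α : Type*) [Finite α] [PartialOrder α] (hα : Irreducible m α)
    (x : α) (hJ : JoinIrr x) (hM : MeetIrr x) :
    (∃ b, Critical x b) ∧ (∃ a, Critical a x) := by
  obtain ⟨d, hd1, hd2⟩ := exists_realizer (hα x)
  rcases Nat.eq_zero_or_pos d with hd | hd
  · subst hd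
    obtain ⟨L, -, h2⟩ := hd1
    have hsub : ∀ a b : {y : α // y ≠ x}, a ≤ b := fun a b => (h2 a b).2 fun i => i.elim0
    have e1 : ∃ u : α, ¬ u ≤ x := by
      by_contra h
      push Not at h
      exact hM ∅ (isGLB_empty_iff.2 h)
    have e2 : ∃ u : α, ¬ x ≤ u := by
      by_contra h
      push Not at h
      exact hJ ∅ (isLUB_empty_iff.2 h)
    obtain ⟨u, hu⟩ := e1
    obtain ⟨v, hv⟩ := e2
    have hux : u ≠ x := by rintro rfl; exact hu le_rfl
    have hvx : v ≠ x := by rintro rfl; exact hv le_rfl
    have huniq : ∀ z, z ≠ x → z = u := fun z hz => congrArg Subtype.val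
      (le_antisymm (hsub ⟨z, hz⟩ ⟨u, hux⟩) (hsub ⟨u, hux⟩ ⟨z, hz⟩))
    have hxu : ¬ x ≤ u := by rw [← huniq v hvx]; exact hv
    refine ⟨⟨u, hxu, hu, fun z hz => ?_, fun z hz => ?_⟩, ⟨u, hu, hxu, fun z hz => ?_,
      fun z hz => ?_⟩⟩
    · exact absurd ((huniq z hz.ne') ▸ hz.le) hxu
    · by_cases h : z = x
      · exact absurd (h ▸ hz.le) hxu
      · exact absurd ((huniq z h) ▸ hz) (lt_irrefl _)
    · by_cases h : z = x
      · exact absurd (h ▸ hz.le) hu
      · exact absurd ((huniq z h) ▸ hz) (lt_irrefl _)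
    · exact absurd ((huniq z hz.ne) ▸ hz.le) hu
  rw [realizable_iff] at hd1 hd2
  have hj : ∃ y, (∀ w, w ≤ x → w ≠ x → w ≤ y) ∧ ¬ x ≤ y := by
    by_contra h
    push Not at h
    have := hJ {w | w < x} ⟨fun w hw => hw.le, fun y hy => h y fun w hw hwx =>
      hy (lt_of_le_of_ne hw hwx)⟩
    exact lt_irrefl _ this
  have hm : ∃ y, (∀ w, x ≤ w → w ≠ x → y ≤ w) ∧ ¬ y ≤ x := by
    by_contra h
    push Not at h
    have := hM {w | x < w} ⟨fun w hw => hw.le, fun y hy => h y fun w hw hwx =>
      hy (lt_of_le_of_ne hw (Ne.symm hwx))⟩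
    exact lt_irrefl _ this
  refine ⟨?_, ?_⟩
  · obtain ⟨b, h1, h2, h3, h4⟩ := second_rel (le := fun a b : α => b ≤ a)
      (fun a => le_rfl) (fun a b c h h' => le_trans h' h) (fun a b h h' => le_antisymm h' h)
      hm hd (rz_flip hd1) (fun h => hd2 (rz_flip h))
    refine ⟨b, h1, h2, fun z hz => ?_, fun z hz => ?_⟩
    · obtain ⟨h5, h6⟩ := h4 z hz.le hz.ne'
      exact lt_of_le_of_ne h5 (Ne.symm h6)
    · obtain ⟨h5, h6⟩ := h3 z hz.le hz.ne
      exact lt_of_le_of_ne h5 h6
  · obtain ⟨a, h1, h2, h3, h4⟩ := second_rel (le := fun a b : α => a ≤ b)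
      (fun a => le_rfl) (fun a b c h h' => le_trans h h') (fun a b h h' => le_antisymm h h')
      hj hd hd1 hd2
    refine ⟨a, h1, h2, fun z hz => ?_, fun z hz => ?_⟩
    · obtain ⟨h5, h6⟩ := h3 z hz.le hz.ne'
      exact lt_of_le_of_ne h5 (Ne.symm h6)
    · obtain ⟨h5, h6⟩ := h4 z hz.le hz.ne
      exact lt_of_le_of_ne h5 h6

end Pool.Agent.Results.MP_ba261c_co.DoublyIrreducible
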